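import Pool.Prelude.Def_F_0dc91acc
import Pool.Agent.H91.LK.F5
import Pool.Agent.H95.LK.S8

/-!
# Lehmer's problem and the number of monomials

Let `f ∈ ℤ[X]` have `k ≥ 2` terms (nonzero coefficients) and `M(f) > 1`.

* `log M(f) ≥ 10 ^ (-36) (k log k) ^ (-6)`.
* If `M(f) < 1.3245` then `f` is symmetric in a strong sense. A relation is a vector `c ∈ ℤ ^ (supp f)` with `∑ c_i = 0`, `∑ c_i i = 0` and `∑ |c_i| ≤ k ^ (265 k)`; a
  direction is a vector `w ∈ ℤ ^ (supp f)` with `∑ c_i w_i = 0` for every relation `c`; the face of `f` in the direction `w` is the sum of the terms of `f` for which `w_i` is maximal.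
  Every face is reciprocal up to sign, with measure at most `1.001 M(f)`, and the space spanned by the relations has dimension at least `k - 1 - log_2 k`.

A weaker form of the second part is used in the proof of the first. Paper proof: the headers of the files in `Pool/Agent/H91/LK`, see `G7.lean`, `G1.lean` and `G3.lean` for
the second part (with Smyth's theorem, `Pool/Agent/H95/Smyth`, and `Pool/Agent/H95/LK`) and `F1.lean`, `F2.lean`, `E6.lean`, `B4.lean` for the first.
-/

set_option autoImplicit false

open Polynomial N60ffa576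

namespace Pool.Agent.Results.MP_dc0c68_nt.MonomialBound

/-- `c` is a relation between the exponents of `f`: `∑ c_i = 0`, `∑ c_i i = 0` and `∑ |c_i| ≤ k ^ (265 k)`, the sums over the `k` exponents `i` of `f`. -/
def IsRelation (f : ℤ[X]) (c : ℕ → ℤ) : Prop :=
  (∀ i, i ∉ f.support → c i = 0) ∧ ∑ i ∈ f.support, c i = 0 ∧ ∑ i ∈ f.support, c i * (i : ℤ) = 0 ∧
    ∑ i ∈ f.support, |c i| ≤ (f.support.card : ℤ) ^ (265 * f.support.card)

/-- The space spanned by the relations between the exponents of `f`. -/
def relationSpace (f : ℤ[X]) : Submodule ℚ (ℕ → ℚ) :=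
  Submodule.span ℚ {x | ∃ c : ℕ → ℤ, IsRelation f c ∧ ∀ i, x i = c i}

/-- `w` is a direction: it satisfies all relations between the exponents of `f`. -/
def IsDirection (f : ℤ[X]) (w : ℕ → ℤ) : Prop :=
  ∀ c : ℕ → ℤ, IsRelation f c → ∑ i ∈ f.support, c i * w i = 0

/-- The face of `f` in the direction `w`: the sum of the terms of `f` with `w_i` maximal. -/
noncomputable def face (f : ℤ[X]) (w : ℕ → ℤ) : ℤ[X] :=
  ∑ i ∈ f.support.filter fun i => ∀ j ∈ f.support, w j ≤ w i, C (f.coeff i) * X ^ i

lemma isRelation_iff (f : ℤ[X]) (c : ℕ → ℤ) :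
    IsRelation f c ↔ H91.LK.IsRel f (f.support.card ^ (265 * f.support.card)) c := by
  unfold IsRelation H91.LK.IsRel
  push_cast
  tauto

lemma relationSpace_eq (f : ℤ[X]) :
    relationSpace f = H91.LK.relSpan f (f.support.card ^ (265 * f.support.card)) := by
  unfold relationSpace H91.LK.relSpan
  simp_rw [isRelation_iff]

lemma face_eq (f : ℤ[X]) (w : ℕ → ℤ) : face f w = H91.LK.facePoly f w := by
  unfold face H91.LK.facePoly
  refine Finset.sum_congr rfl fun i _ => ?_
  rw [C_mul_X_pow_eq_monomial]

lemma log_measure (f : ℤ[X]) : Real.log (mahlerMeasureZ f) = H91.LK.lm f := by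
  unfold mahlerMeasureZ H91.LK.lm
  rw [← logMahlerMeasure_eq_log_MahlerMeasure, algebraMap_int_eq]

lemma measure_pos {f : ℤ[X]} (hf : f ≠ 0) : 0 < mahlerMeasureZ f := by
  unfold mahlerMeasureZ
  apply mahlerMeasure_pos_of_ne_zero
  rw [algebraMap_int_eq]
  exact (Polynomial.map_ne_zero_iff (RingHom.injective_int _)).2 hf

lemma measure_zero : mahlerMeasureZ 0 = 0 := by
  unfold mahlerMeasureZ
  simp

theorem result (f : ℤ[X]) (hk : 2 ≤ f.support.card) (hM : 1 < mahlerMeasureZ f) :
    1 / 10 ^ 36 / ((f.support.card : ℝ) * Real.log f.support.card) ^ 6 ≤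
      Real.log (mahlerMeasureZ f) ∧
    (mahlerMeasureZ f < 13245 / 10000 →
      (∀ w : ℕ → ℤ, IsDirection f w →
        mahlerMeasureZ (face f w) ≤ 1001 / 1000 * mahlerMeasureZ f ∧
        ∃ (s : ℕ) (e : ℤ), (e = 1 ∨ e = -1) ∧ ∀ i ∈ (face f w).support,
          i ≤ s ∧ (face f w).coeff (s - i) = e * (face f w).coeff i) ∧
      f.support.card ≤ Module.finrank ℚ (relationSpace f) + 1 + Nat.log 2 f.support.card) := by
  have hM0 : 0 < mahlerMeasureZ f := by linarith
  refine ⟨?_, ?_⟩
  · rw [log_measure]
    refine H91.LK.main6_explicit f ?_ hk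
    rw [← log_measure]
    exact Real.log_pos hM
  · intro h128
    have h1 : H91.LK.lm f < Real.log (13245 / 10000) := by
      rw [← log_measure]
      exact Real.log_lt_log hM0 h128
    refine ⟨?_, ?_⟩
    · intro w hw
      rw [face_eq]
      obtain ⟨h2, h3⟩ := Pool.Agent.H95.LK.faces13_265 f hk h1 _ le_rfl w fun c hc =>
        hw c ((isRelation_iff f c).2 hc)
      refine ⟨?_, h3⟩
      by_cases h0 : H91.LK.facePoly f w = 0
      · rw [h0, measure_zero]
        positivity
      · have h4 := measure_pos h0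
        rw [← log_measure, ← log_measure] at h2
        have h5 : Real.log (mahlerMeasureZ (H91.LK.facePoly f w)) ≤
            Real.log (1001 / 1000 * mahlerMeasureZ f) := by
          rw [Real.log_mul (by norm_num) hM0.ne']
          have h6 : 1 - (1001 / 1000 : ℝ)⁻¹ ≤ Real.log (1001 / 1000) :=
            Real.one_sub_inv_le_log_of_pos (by norm_num)
          norm_num at h6
          linarith
        exact (Real.log_le_log_iff h4 (by positivity)).1 h5
    · have h2 := Pool.Agent.H95.LK.rank13_265 f hk h1 _ le_rfl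
      rw [← relationSpace_eq] at h2
      have h3 := Nat.le_log_of_pow_le (by norm_num) h2
      omega

end Pool.Agent.Results.MP_dc0c68_nt.MonomialBound
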