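import Pool.Prelude.Def_F_0dc91acc
import Pool.Agent.H25.LKP.N11
import Pool.Agent.H25.LKP.N12
import Pool.Agent.H25.LKP.N13

/-!
# Lehmer's problem and the number of terms

Let `f ∈ ℤ[X]` have `k ≥ 2` terms (nonzero coefficients).

* If `M(f) > 1` then `log M(f) ≥ 10 ^ (-20) k ^ (-3)`.
* If `M(f) < 1.3245` then `f` is symmetric in a strong sense. A relation is a vector `c ∈ ℤ ^ (supp f)` with `∑ c_i = 0`, `∑ c_i i = 0` and `∑ |c_i| ≤ 10 ^ 7 k ^ 5`; a
  direction is a vector `w ∈ ℤ ^ (supp f)` with `∑ c_i w_i = 0` for every relation `c`; the face of `f` in the direction `w` is the sum of the terms of `f` for which `w_i` is maximal.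
  Every face is reciprocal up to sign, with measure at most `1.001 M(f)`, and the space spanned by the relations has dimension at least `k - 1 - log_2 k`.
* If `M(f) ≤ 2` and `0 < ε ≤ 1`, the exponents of `f` can be replaced by distinct exponents of size at most `(k/ε) ^ (37 k)`, `log M` changing by at most `ε`.

All three rest on a comparison theorem: two polynomials with the same coefficients whose exponents have the same relations of length `O (k² T)` have logarithmic
measures that differ by `O (k log (1/ρ)/T)` and a term that is exponentially small in the choice of `ρ`. Paper proof: the headers of the files `N1`, …, `N13` in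
`Pool/Agent/H25/LKP`, of `G7.lean`, `G1.lean`, `G3.lean` in `Pool/Agent/H91/LK`, and `Pool/Agent/H95/LK`, `Pool/Agent/H95/Smyth` (Smyth's theorem).
-/

set_option autoImplicit false

open Polynomial N60ffa576

namespace H91.Kept.TermBoundThree

/-- `c` is a relation between the exponents of `f`: `∑ c_i = 0`, `∑ c_i i = 0` and `∑ |c_i| ≤ 10 ^ 7 k ^ 5`, the sums over the `k` exponents `i` of `f`. -/
def IsRelation (f : ℤ[X]) (c : ℕ → ℤ) : Prop :=
  (∀ i, i ∉ f.support → c i = 0) ∧ ∑ i ∈ f.support, c i = 0 ∧ ∑ i ∈ f.support, c i * (i : ℤ) = 0 ∧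
    ∑ i ∈ f.support, |c i| ≤ 10 ^ 7 * (f.support.card : ℤ) ^ 5

/-- The space spanned by the relations between the exponents of `f`. -/
def relationSpace (f : ℤ[X]) : Submodule ℚ (ℕ → ℚ) :=
  Submodule.span ℚ {x | ∃ c : ℕ → ℤ, IsRelation f c ∧ ∀ i, x i = c i}

/-- `w` is a direction: it satisfies all relations between the exponents of `f`. -/
def IsDirection (f : ℤ[X]) (w : ℕ → ℤ) : Prop :=
  ∀ c : ℕ → ℤ, IsRelation f c → ∑ i ∈ f.support, c i * w i = 0

/-- The face of `f` in the direction `w`: the sum of the terms of `f` with `w_i` maximal. -/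
noncomputable def face (f : ℤ[X]) (w : ℕ → ℤ) : ℤ[X] :=
  ∑ i ∈ f.support.filter fun i => ∀ j ∈ f.support, w j ≤ w i, C (f.coeff i) * X ^ i

/-- The polynomial `f` with the exponents `i` replaced by `m i`. -/
noncomputable def shift (f : ℤ[X]) (m : ℕ → ℕ) : ℤ[X] :=
  ∑ i ∈ f.support, C (f.coeff i) * X ^ m i

lemma isRelation_iff (f : ℤ[X]) (c : ℕ → ℤ) :
    IsRelation f c ↔ H91.LK.IsRel f (10 ^ 7 * f.support.card ^ 5) c := by
  unfold IsRelation H91.LK.IsRel
  push_cast
  tauto

lemma relationSpace_eq (f : ℤ[X]) :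
    relationSpace f = H91.LK.relSpan f (10 ^ 7 * f.support.card ^ 5) := by
  unfold relationSpace H91.LK.relSpan
  simp_rw [isRelation_iff]

lemma face_eq (f : ℤ[X]) (w : ℕ → ℤ) : face f w = H91.LK.facePoly f w := by
  unfold face H91.LK.facePoly
  refine Finset.sum_congr rfl fun i _ => ?_
  rw [C_mul_X_pow_eq_monomial]

lemma shift_eq (f : ℤ[X]) (m : ℕ → ℕ) :
    shift f m = H91.LK.sp (H91.LK.cf f) fun i => m (H91.LK.expo f i) := by
  unfold shift H91.LK.sp H91.LK.cf
  rw [H91.LK.sum_expo f fun e => monomial (m e) (f.coeff e)]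
  refine Finset.sum_congr rfl fun i _ => ?_
  rw [C_mul_X_pow_eq_monomial]

lemma log_measure (f : ℤ[X]) : Real.log (mahlerMeasureZ f) = H91.LK.lm f := by
  unfold mahlerMeasureZ H91.LK.lm
  rw [← logMahlerMeasure_eq_log_MahlerMeasure, algebraMap_int_eq]

lemma measure_pos {f : ℤ[X]} (hf : f ≠ 0) : 0 < mahlerMeasureZ f := by
  unfold mahlerMeasureZ
  apply mahlerMeasure_pos_of_ne_zero
  rw [algebraMap_int_eq]
  exact (Polynomial.map_ne_zero_iff (RingHom.injective_int _)).2 hf

lemma measure_zero : mahlerMeasureZ 0 = 0 := by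
  unfold mahlerMeasureZ
  simp

theorem result (f : ℤ[X]) (hk : 2 ≤ f.support.card) :
    (1 < mahlerMeasureZ f →
      1 / 10 ^ 20 / (f.support.card : ℝ) ^ 3 ≤ Real.log (mahlerMeasureZ f)) ∧
    (mahlerMeasureZ f < 13245 / 10000 →
      (∀ w : ℕ → ℤ, IsDirection f w →
        mahlerMeasureZ (face f w) ≤ 1001 / 1000 * mahlerMeasureZ f ∧
        ∃ (s : ℕ) (e : ℤ), (e = 1 ∨ e = -1) ∧ ∀ i ∈ (face f w).support,
          i ≤ s ∧ (face f w).coeff (s - i) = e * (face f w).coeff i) ∧
      f.support.card ≤ Module.finrank ℚ (relationSpace f) + 1 + Nat.log 2 f.support.card) ∧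
    (mahlerMeasureZ f ≤ 2 → ∀ ε : ℝ, 0 < ε → ε ≤ 1 →
      ∃ m : ℕ → ℕ, Set.InjOn m f.support ∧
        (∀ i ∈ f.support, (m i : ℝ) ≤ ((f.support.card : ℝ) / ε) ^ (37 * f.support.card)) ∧
        |Real.log (mahlerMeasureZ (shift f m)) - Real.log (mahlerMeasureZ f)| ≤ ε) := by
  have hf : f ≠ 0 := by
    rintro rfl
    simp at hk
  have hM0 : 0 < mahlerMeasureZ f := measure_pos hf
  refine ⟨fun hM => ?_, fun h128 => ?_, fun hM2 ε hε hε1 => ?_⟩
  · rw [log_measure]
    refine H25.LKP.main3_explicit f ?_ hk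
    rw [← log_measure]
    exact Real.log_pos hM
  · have h1 : H91.LK.lm f < Real.log (13245 / 10000) := by
      rw [← log_measure]
      exact Real.log_lt_log hM0 h128
    refine ⟨?_, ?_⟩
    · intro w hw
      rw [face_eq]
      obtain ⟨h2, h3⟩ := H25.LKP.facesP f hk h1 _ le_rfl w fun c hc =>
        hw c ((isRelation_iff f c).2 hc)
      refine ⟨?_, h3⟩
      by_cases h0 : H91.LK.facePoly f w = 0
      · rw [h0, measure_zero]
        positivity
      · have h4 := measure_pos h0
        rw [← log_measure, ← log_measure] at h2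
        have h5 : Real.log (mahlerMeasureZ (H91.LK.facePoly f w)) ≤
            Real.log (1001 / 1000 * mahlerMeasureZ f) := by
          rw [Real.log_mul (by norm_num) hM0.ne']
          have h6 : 1 - (1001 / 1000 : ℝ)⁻¹ ≤ Real.log (1001 / 1000) :=
            Real.one_sub_inv_le_log_of_pos (by norm_num)
          norm_num at h6
          linarith
        exact (Real.log_le_log_iff h4 (by positivity)).1 h5
    · have h2 := H25.LKP.rankP f hk h1 _ le_rfl
      rw [← relationSpace_eq] at h2
      have h3 := Nat.le_log_of_pow_le (by norm_num) h2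
      omega
  · have hlm : H91.LK.lm f ≤ Real.log 2 := by
      rw [← log_measure]
      exact Real.log_le_log hM0 hM2
    have hsp : H91.LK.sp (H91.LK.cf f) (fun i => H91.LK.expo f i) = f := H91.LK.sp_expo f
    obtain ⟨m, hm, hmle, hmε⟩ := H25.LKP.closureP hk (H91.LK.cf f) (H91.LK.cf_ne f)
      (fun i => H91.LK.expo f i) (H91.LK.expo f).injective (by rw [hsp]; exact hlm) ε hε hε1
    rw [hsp] at hmε
    classical
    obtain ⟨m', hm'⟩ : ∃ m' : ℕ → ℕ, ∀ i, m' (H91.LK.expo f i) = m i := by
      refine ⟨fun e => if h : ∃ i, H91.LK.expo f i = e then m h.choose else 0, fun i => ?_⟩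
      have h : ∃ j, H91.LK.expo f j = H91.LK.expo f i := ⟨i, rfl⟩
      simp only [dif_pos h]
      exact congrArg m ((H91.LK.expo f).injective h.choose_spec)
    refine ⟨m', ?_, ?_, ?_⟩
    · intro x hx y hy hxy
      obtain ⟨i, rfl⟩ := H91.LK.expo_surj f (Finset.mem_coe.1 hx)
      obtain ⟨j, rfl⟩ := H91.LK.expo_surj f (Finset.mem_coe.1 hy)
      rw [hm', hm'] at hxy
      rw [hm hxy]
    · intro x hx
      obtain ⟨i, rfl⟩ := H91.LK.expo_surj f hx
      rw [hm']
      exact hmle i
    · rw [log_measure, log_measure, shift_eq]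
      simp_rw [hm']
      exact hmε

end H91.Kept.TermBoundThree
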